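import Pool.Agent.K4H37.LC.Final

set_option autoImplicit false

/-!
# Idempotent matrices over group algebras over fields of large characteristic
-/

namespace Pool.Agent.Results.MP_1a2884_al.LargeCharacteristicTraces

variable {K : Type} [Field K] {G : Type} [Group G] {n : ℕ}

/-- The total number of nonzero coefficients of the entries of a matrix over `K[G]`. -/
def size (A : Matrix (Fin n) (Fin n) (MonoidAlgebra K G)) : ℕ :=
  ∑ i, ∑ j, (A i j).coeff.support.card

/-- Kaplansky's trace: the sum of the coefficients at the identity of the diagonal entries. -/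
def tr (A : Matrix (Fin n) (Fin n) (MonoidAlgebra K G)) : K := ∑ i, (A i i).coeff 1

open Classical in
/-- The Hattori-Stallings trace at the conjugacy class of `g`: the sum of the coefficients of the
diagonal entries at the conjugates of `g`. -/
noncomputable def hs (A : Matrix (Fin n) (Fin n) (MonoidAlgebra K G)) (g : G) : K :=
  ∑ i, ∑ x ∈ (A i i).coeff.support, if IsConj x g then (A i i).coeff x else 0

/-- The augmentation: every entry is replaced by the sum of its coefficients. -/
def aug (A : Matrix (Fin n) (Fin n) (MonoidAlgebra K G)) : Matrix (Fin n) (Fin n) K :=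
  Matrix.of fun i j => ∑ x ∈ (A i j).coeff.support, (A i j).coeff x

/-- For every `s` there are `p₀`, `m`, `J` and a finite set `T` of rational numbers in `[0, s]` with
the following property. Let `K` be a field of characteristic `p` where `p = 0` or `p ≥ p₀`, let `G`
be any group and `E` an idempotent `n × n` matrix over `K[G]` with `n ≤ s` and at most `s` nonzero
coefficients.
(1) The trace of `E` is the image in `K` of an element `τ ≤ n` of `T`; `E = 0` iff `τ = 0`, and
`E = 1` iff `τ = n`.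
(2) If the Hattori-Stallings trace of `E` at `g` does not vanish, then `g` is conjugate to
`g ^ (k ^ J)` for all `k` prime to `m`.
(3) If no `g ≠ 1` in `G` is conjugate to all these powers, the trace of `E` is the rank of the
augmented matrix, and `E` is `0` or `1` if the rank is `0` or `n`. In particular `0` and `1` are the
only idempotents with at most `s` nonzero coefficients in `K[G]`. -/
theorem result (s : ℕ) : ∃ (p₀ m J : ℕ) (T : Finset ℚ), 2 ≤ m ∧ 1 ≤ J ∧
    (∀ τ ∈ T, 0 ≤ τ ∧ τ ≤ s) ∧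
    ∀ (K : Type) [Field K] (p : ℕ) [CharP K p], (p = 0 ∨ p₀ ≤ p) →
    ∀ (G : Type) [Group G] (n : ℕ) (E : Matrix (Fin n) (Fin n) (MonoidAlgebra K G)),
      n ≤ s → size E ≤ s → E * E = E →
      (∃ τ ∈ T, τ ≤ n ∧ tr E = (τ : K) ∧ (E = 0 ↔ τ = 0) ∧ (E = 1 ↔ τ = n)) ∧
      (∀ g, hs E g ≠ 0 → ∀ k : ℕ, k.Coprime m → IsConj g (g ^ k ^ J)) ∧
      ((∀ g : G, g ≠ 1 → ∃ k : ℕ, k.Coprime m ∧ ¬ IsConj g (g ^ k ^ J)) →
        tr E = ((aug E).rank : K) ∧ (E = 0 ↔ (aug E).rank = 0) ∧ (E = 1 ↔ (aug E).rank = n) ∧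
        (n = 1 → E = 0 ∨ E = 1)) := by
  obtain ⟨D, m, J, T, hD, hm, hJ, hT, h⟩ := Pool.Agent.K4H37.LC.final s
  refine ⟨D + 1, m, J, T, hm, hJ, hT, ?_⟩
  intro K _ p _ hp G _ n E hn hs hE
  have hK : (D : K) ≠ 0 := by
    rw [Ne, CharP.cast_eq_zero_iff K p]
    intro h1
    rcases hp with rfl | hp
    · exact hD (zero_dvd_iff.1 h1)
    · have := Nat.le_of_dvd (Nat.pos_of_ne_zero hD) h1
      omega
  obtain ⟨⟨τ, a1, a2, a3, a4, a5⟩, a6, a7⟩ := h K hK G n hn E hs hE
  refine ⟨⟨τ, a1, a2, a3, a4.symm, a5.symm⟩, a6, fun hG => ?_⟩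
  obtain ⟨b1, b2, b3⟩ := a7 hG
  refine ⟨b1, b2.symm, b3.symm, ?_⟩
  intro h1
  subst h1
  have h2 : (aug E).rank ≤ 1 := by
    have := Matrix.rank_le_width (aug E)
    exact this
  rcases Nat.le_one_iff_eq_zero_or_eq_one.1 h2 with h3 | h3
  · exact Or.inl (b2.1 h3)
  · exact Or.inr (b3.1 h3)

end Pool.Agent.Results.MP_1a2884_al.LargeCharacteristicTraces
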