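import Pool.Agent.K4H37.KZ.Mod

/-!
# Projective modules and presentations with three terms in each relation

Over every ring `S` generated by a set `X`, every finitely generated projective module is the
cokernel of a matrix `D + P - Q` with a diagonal matrix `D` whose entries are `1` or belong to `X`, and
permutation matrices `P` and `Q`. For group rings `RG` the entries of `D` are generators of `R` or of
`G`, and the surjectivity of `K_0(R) → K_0(RG)` is a statement on such matrices.
-/

set_option autoImplicit false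

namespace Pool.Agent.Results.MP_1a2884_al.ThreeTermPresentations

open Matrix

/-- The ring `S` is generated by the set `X`, together with the inverses of those members of `X`
which are units. -/
def Generates (S : Type) [Ring S] (X : Set S) : Prop :=
  Subring.closure (X ∪ {a | ∃ y : Sˣ, (y : S) ∈ X ∧ a = ((y⁻¹ : Sˣ) : S)}) = ⊤

/-- The left `S`-module with generators indexed by `κ` whose relations are the rows of `A`. -/
abbrev Coker {S : Type} [Ring S] {ι κ : Type} (A : Matrix ι κ S) : Type :=
  (κ → S) ⧸ Submodule.span S (Set.range fun i => A i)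

/-- The matrix `D + P - Q`, where `D` is diagonal with entries `d i`, and `P`, `Q` are the
permutation matrices with the entries `1` in the positions `(i, σ i)` and `(i, τ i)`. -/
def threeTerm {S : Type} [Ring S] {N : ℕ} (d : Fin N → S) (σ τ : Equiv.Perm (Fin N)) :
    Matrix (Fin N) (Fin N) S :=
  Matrix.of fun i j => (if i = j then d i else 0) + (if σ i = j then 1 else 0)
    - (if τ i = j then 1 else 0)

/-- The elements of the group ring `RG` given by the members of `XR ⊆ R` and of `XG ⊆ G`. -/
def gens {R G : Type} [Ring R] [Group G] (XR : Set R) (XG : Set G) : Set (MonoidAlgebra R G) :=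
  {x | (∃ r ∈ XR, x = MonoidAlgebra.single 1 r) ∨ ∃ g ∈ XG, x = MonoidAlgebra.single g 1}

/-- The class in `K_0(RG)` of the (finitely generated projective) module `P` is in the image of
`K_0(R)`: the sum of `P` and a free module of finite rank is isomorphic to the module
`(RG)^n e = RG ⊗ (R^n e)` for an idempotent matrix `e` over `R`. -/
def StablyExtended (R G : Type) [Ring R] [Group G] (P : Type) [AddCommGroup P]
    [Module (MonoidAlgebra R G) P] : Prop :=
  ∃ (n k : ℕ) (e : Matrix (Fin n) (Fin n) R), e * e = e ∧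
    Nonempty ((P × (Fin k → MonoidAlgebra R G)) ≃ₗ[MonoidAlgebra R G]
      ↥(Submodule.span (MonoidAlgebra R G)
        (Set.range fun i => (fun j => (MonoidAlgebra.single 1 (e i j) : MonoidAlgebra R G)))))

/-- The canonical map `K_0(R) → K_0(RG)` is surjective. -/
def KZeroOnto (R G : Type) [Ring R] [Group G] : Prop :=
  ∀ (P : Type) [AddCommGroup P] [Module (MonoidAlgebra R G) P],
    Module.Finite (MonoidAlgebra R G) P → Module.Projective (MonoidAlgebra R G) P →
      StablyExtended R G P

section aux

open Pool.Agent.K4H37.KZ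

theorem gen_top {S : Type} [Ring S] {X : Set S} (hX : Generates S X) :
    Subring.closure (X ∪ {a | ∃ y : Sˣ, y ∈ (⊤ : Subgroup Sˣ) ∧ (y : S) ∈ X ∧
      a = ((y⁻¹ : Sˣ) : S)}) = ⊤ := by
  rw [← hX]
  congr 2
  ext a
  constructor
  · rintro ⟨y, _, h1, h2⟩
    exact ⟨y, h1, h2⟩
  · rintro ⟨y, h1, h2⟩
    exact ⟨y, Subgroup.mem_top y, h1, h2⟩

theorem present_sq {S : Type} [Ring S] {X : Set S} (hX : Generates S X) {κ : Type} [Fintype κ]
    [DecidableEq κ] (A : Matrix κ κ S) :
    ∃ (N : ℕ) (d : Fin N → S) (σ τ : Equiv.Perm (Fin N)), (∀ i, d i ∈ X ∨ d i = 1) ∧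
      Nonempty (Coker A ≃ₗ[S] Coker (threeTerm d σ τ)) := by
  obtain ⟨c, hc⟩ := rep_all (U := ⊤) (Y := X) (Subgroup.mem_top _) (gen_top hX) A
  obtain ⟨N, d, σ, τ, _, h2, h3⟩ := square hc
  exact ⟨N, d, σ, τ, h2, h3⟩

/-- the group ring is generated -/
theorem gens_generate {R G : Type} [Ring R] [Group G] {XR : Set R} {XG : Set G}
    (hR : Generates R XR) (hG : Subgroup.closure XG = ⊤) :
    Generates (MonoidAlgebra R G) (gens XR XG) := by
  unfold Generates
  rw [eq_top_iff]
  intro a _
  set T := Subring.closure (gens XR XG ∪ {a | ∃ y : (MonoidAlgebra R G)ˣ,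
    (y : MonoidAlgebra R G) ∈ gens XR XG ∧ a = ((y⁻¹ : (MonoidAlgebra R G)ˣ) : MonoidAlgebra R G)})
    with hT
  have hr : ∀ r : R, MonoidAlgebra.single (1 : G) r ∈ T := by
    intro r
    have h1 : r ∈ Subring.closure (XR ∪ {a | ∃ y : Rˣ, (y : R) ∈ XR ∧ a = ((y⁻¹ : Rˣ) : R)}) := by
      rw [show Subring.closure (XR ∪ {a | ∃ y : Rˣ, (y : R) ∈ XR ∧ a = ((y⁻¹ : Rˣ) : R)}) = ⊤ from hR]
      exact Subring.mem_top r
    have h2 : Subring.closure (XR ∪ {a | ∃ y : Rˣ, (y : R) ∈ XR ∧ a = ((y⁻¹ : Rˣ) : R)}) ≤
        T.comap (MonoidAlgebra.singleOneRingHom (R := R) (M := G)) := by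
      rw [Subring.closure_le]
      rintro x (hx | ⟨y, hy, rfl⟩)
      · exact Subring.subset_closure (Or.inl (Or.inl ⟨x, hx, rfl⟩))
      · refine Subring.subset_closure (Or.inr ⟨Units.map
          (MonoidAlgebra.singleOneRingHom (R := R) (M := G)).toMonoidHom y, ?_, ?_⟩)
        · exact Or.inl ⟨y, hy, rfl⟩
        · rfl
    exact h2 h1
  have hg : ∀ g : G, MonoidAlgebra.single g (1 : R) ∈ T := by
    intro g
    have h1 : g ∈ Subgroup.closure XG := hG ▸ Subgroup.mem_top g
    have h2 : MonoidAlgebra.single g (1 : R) ∈ T ∧ MonoidAlgebra.single g⁻¹ (1 : R) ∈ T := by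
      induction h1 using Subgroup.closure_induction with
      | mem x hx =>
        have h3 : MonoidAlgebra.single x (1 : R) ∈ gens XR XG := Or.inr ⟨x, hx, rfl⟩
        refine ⟨Subring.subset_closure (Or.inl h3), Subring.subset_closure (Or.inr
          ⟨⟨MonoidAlgebra.single x 1, MonoidAlgebra.single x⁻¹ 1, ?_, ?_⟩, h3, rfl⟩)⟩
        · rw [MonoidAlgebra.single_mul_single, mul_inv_cancel, one_mul, MonoidAlgebra.one_def]
        · rw [MonoidAlgebra.single_mul_single, inv_mul_cancel, one_mul, MonoidAlgebra.one_def]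
      | one =>
        rw [inv_one]
        exact ⟨one_mem T, one_mem T⟩
      | mul x y _ _ hx hy =>
        constructor
        · have := mul_mem hx.1 hy.1
          rwa [MonoidAlgebra.single_mul_single, one_mul] at this
        · have := mul_mem hy.2 hx.2
          rwa [MonoidAlgebra.single_mul_single, one_mul, ← _root_.mul_inv_rev] at this
      | inv x _ hx =>
        rw [inv_inv]
        exact ⟨hx.2, hx.1⟩
    exact h2.1
  induction a using MonoidAlgebra.induction_linear with
  | zero => exact zero_mem T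
  | add a b ha hb => exact add_mem (ha (Subring.mem_top a)) (hb (Subring.mem_top b))
  | single g r =>
    have := mul_mem (hr r) (hg g)
    rwa [MonoidAlgebra.single_mul_single, one_mul, mul_one] at this

theorem extended_congr {R G : Type} [Ring R] [Group G] {P Q : Type} [AddCommGroup P]
    [Module (MonoidAlgebra R G) P] [AddCommGroup Q] [Module (MonoidAlgebra R G) Q]
    (f : P ≃ₗ[MonoidAlgebra R G] Q) (h : StablyExtended R G Q) : StablyExtended R G P := by
  obtain ⟨n, k, e, he, ⟨g⟩⟩ := h
  exact ⟨n, k, e, he, ⟨(LinearEquiv.prodCongr f (LinearEquiv.refl _ _)).trans g⟩⟩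

end aux

/-- **Projective modules over group rings and presentations with three terms per relation.**
1. Let the ring `S` be generated by `X` (and the inverses of the units in `X`). Every finitely
   generated projective left `S`-module is isomorphic to the cokernel of a matrix `D + P - Q`, where
   `D` is a diagonal matrix with entries in `X ∪ {1}` and `P`, `Q` are permutation matrices.
2. Every finitely presented left `S`-module becomes isomorphic to the cokernel of such a matrix after
   adding a free module of finite rank.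
3. More precisely, every square matrix `A` of size `n` over every ring has the same cokernel as a
   matrix `D + P - Q` of size at most `n + 27 n ^ 2`, where the entries of `D` are `1` or entries of
   `A - 1`.
4. Let `R` be a ring generated by `XR` and `G` a group generated by `XG`. The canonical map
   `K_0(R) → K_0(RG)` is surjective if and only if each matrix `D + P - Q` over `RG` such that the
   entries of `D` are `1`, or members of `XR` or of `XG`, and such that the cokernel is projective,
   has a cokernel which is stably extended from `R`. -/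
theorem result :
    (∀ (S : Type) [Ring S] (X : Set S), Generates S X →
      ∀ (P : Type) [AddCommGroup P] [Module S P], Module.Finite S P → Module.Projective S P →
        ∃ (N : ℕ) (d : Fin N → S) (σ τ : Equiv.Perm (Fin N)), (∀ i, d i ∈ X ∨ d i = 1) ∧
          Nonempty (P ≃ₗ[S] Coker (threeTerm d σ τ))) ∧
    (∀ (S : Type) [Ring S] (X : Set S), Generates S X →
      ∀ (P : Type) [AddCommGroup P] [Module S P], Module.FinitePresentation S P →
        ∃ (m N : ℕ) (d : Fin N → S) (σ τ : Equiv.Perm (Fin N)), (∀ i, d i ∈ X ∨ d i = 1) ∧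
          Nonempty ((P × (Fin m → S)) ≃ₗ[S] Coker (threeTerm d σ τ))) ∧
    (∀ (S : Type) [Ring S] (n : ℕ) (A : Matrix (Fin n) (Fin n) S),
      ∃ (N : ℕ) (d : Fin N → S) (σ τ : Equiv.Perm (Fin N)), N ≤ n + 27 * n ^ 2 ∧
        (∀ i, (∃ k l, d i = (A - 1) k l) ∨ d i = 1) ∧
          Nonempty (Coker A ≃ₗ[S] Coker (threeTerm d σ τ))) ∧
    (∀ (R G : Type) [Ring R] [Group G] (XR : Set R) (XG : Set G), Generates R XR →
      Subgroup.closure XG = ⊤ →
      (KZeroOnto R G ↔ ∀ (N : ℕ) (d : Fin N → MonoidAlgebra R G) (σ τ : Equiv.Perm (Fin N)),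
        (∀ i, d i ∈ gens XR XG ∨ d i = 1) →
        Module.Projective (MonoidAlgebra R G) (Coker (threeTerm d σ τ)) →
          StablyExtended R G (Coker (threeTerm d σ τ)))) := by
  have h1 : ∀ (S : Type) [Ring S] (X : Set S), Generates S X →
      ∀ (P : Type) [AddCommGroup P] [Module S P], Module.Finite S P → Module.Projective S P →
        ∃ (N : ℕ) (d : Fin N → S) (σ τ : Equiv.Perm (Fin N)), (∀ i, d i ∈ X ∨ d i = 1) ∧
          Nonempty (P ≃ₗ[S] Coker (threeTerm d σ τ)) := by
    intro S _ X hX P _ _ _ _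
    obtain ⟨n, A, ⟨f⟩⟩ := Pool.Agent.K4H37.KZ.proj_square (R := S) P
    obtain ⟨N, d, σ, τ, h2, ⟨g⟩⟩ := present_sq hX A
    exact ⟨N, d, σ, τ, h2, ⟨f.trans g⟩⟩
  refine ⟨h1, ?_, ?_, ?_⟩
  · intro S _ X hX P _ _ _
    obtain ⟨n, m, A, ⟨f⟩⟩ := Pool.Agent.K4H37.KZ.fp_square (R := S) P
    obtain ⟨N, d, σ, τ, h2, ⟨g⟩⟩ := present_sq hX A
    exact ⟨m, N, d, σ, τ, h2, ⟨f.trans g⟩⟩
  · intro S _ n A
    have h2 := Pool.Agent.K4H37.KZ.RepR.add_matrix (U := ⊤) (Y := {x | ∃ k l, x = (A - 1) k l})
      (fun _ => 27) (Pool.Agent.K4H37.KZ.RepR.base (κ := Fin n)) (A - 1)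
      (fun i j => Pool.Agent.K4H37.KZ.QcR.pos (Subgroup.mem_top _) _ (Or.inl ⟨i, j, rfl⟩))
    rw [add_sub_cancel] at h2
    obtain ⟨N, d, σ, τ, h3, h4, h5⟩ := Pool.Agent.K4H37.KZ.square h2
    refine ⟨N, d, σ, τ, ?_, h4, h5⟩
    simp only [Finset.sum_const, Finset.card_univ, Fintype.card_fin, smul_eq_mul] at h3
    refine h3.trans (le_of_eq ?_)
    ring
  · intro R G _ _ XR XG hR hG
    constructor
    · intro h N d σ τ _ hP
      exact h _ inferInstance hP
    · intro h P _ _ hfin hproj
      obtain ⟨N, d, σ, τ, h2, ⟨f⟩⟩ := h1 _ _ (gens_generate hR hG) P hfin hproj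
      have hP' : Module.Projective (MonoidAlgebra R G) (Coker (threeTerm d σ τ)) :=
        Module.Projective.of_equiv f
      exact extended_congr f (h N d σ τ h2 hP')

end Pool.Agent.Results.MP_1a2884_al.ThreeTermPresentations
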