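import Pool.Agent.K4H37.TC.Final

set_option autoImplicit false

/-!
# The projective class groups of group algebras in characteristic zero and in large characteristic
-/

namespace Pool.Agent.Results.MP_1a2884_al.TransferCharacteristic

open Matrix

/-- `G` has no element of finite order except `1`. -/
def TorsionFree (G : Type) [Group G] : Prop := ∀ g : G, ∀ k : ℕ, 0 < k → g ^ k = 1 → g = 1

/-- The module `K[G]^n E` of the idempotent matrix `E` is stably free: there are `k`, `m` such that
`K[G]^n E ⊕ K[G]^k` is isomorphic to `K[G]^m`, an isomorphism being given by matrices `X`, `Y` with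
`X Y = E ⊕ 1` and `Y X = 1`. -/
def StablyFree {K G : Type} [CommRing K] [Group G] {n : ℕ}
    (E : Matrix (Fin n) (Fin n) (MonoidAlgebra K G)) : Prop :=
  ∃ (k m : ℕ) (X : Matrix (Fin n ⊕ Fin k) (Fin m) (MonoidAlgebra K G))
    (Y : Matrix (Fin m) (Fin n ⊕ Fin k) (MonoidAlgebra K G)),
    X * Y = Matrix.fromBlocks E 0 0 1 ∧ Y * X = 1

/-- For a field `K`: the canonical map `K_0(K) → K_0(K[G])` is surjective, that is every finitely
generated projective module over `K[G]` is stably free. -/
def KZeroOnto (K G : Type) [CommRing K] [Group G] : Prop :=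
  ∀ (n : ℕ) (E : Matrix (Fin n) (Fin n) (MonoidAlgebra K G)), E * E = E → StablyFree E

/-- The total number of nonzero coefficients of the entries of a matrix over `K[G]`. -/
def size {K G : Type} [CommRing K] [Group G] {κ ι : Type} [Fintype κ] [Fintype ι]
    (A : Matrix κ ι (MonoidAlgebra K G)) : ℕ :=
  ∑ i, ∑ j, (A i j).coeff.support.card

/-- The entries of the matrix are linear combinations of elements of `F`. -/
def SupportedIn {K G : Type} [CommRing K] [Group G] {κ ι : Type} (F : Finset G)
    (A : Matrix κ ι (MonoidAlgebra K G)) : Prop :=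
  ∀ i j, (A i j).coeff.support ⊆ F

/-- A certificate of size `N` for the stable freeness of the module of `E`: the numbers `k` and `m`
and the numbers of nonzero coefficients of `X` and `Y` are at most `N`. -/
def Certificate {K G : Type} [CommRing K] [Group G] {n : ℕ} (N : ℕ)
    (E : Matrix (Fin n) (Fin n) (MonoidAlgebra K G)) : Prop :=
  ∃ (k m : ℕ) (X : Matrix (Fin n ⊕ Fin k) (Fin m) (MonoidAlgebra K G))
    (Y : Matrix (Fin m) (Fin n ⊕ Fin k) (MonoidAlgebra K G)),
    k ≤ N ∧ m ≤ N ∧ size X ≤ N ∧ size Y ≤ N ∧
    X * Y = Matrix.fromBlocks E 0 0 1 ∧ Y * X = 1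

/-- A certificate for the stable freeness of the module of `E` in which `k` and `m` are at most `N`
and the entries of `X` and `Y` are linear combinations of elements of `F`. -/
def CertificateIn {K G : Type} [CommRing K] [Group G] {n : ℕ} (F : Finset G) (N : ℕ)
    (E : Matrix (Fin n) (Fin n) (MonoidAlgebra K G)) : Prop :=
  ∃ (k m : ℕ) (X : Matrix (Fin n ⊕ Fin k) (Fin m) (MonoidAlgebra K G))
    (Y : Matrix (Fin m) (Fin n ⊕ Fin k) (MonoidAlgebra K G)),
    k ≤ N ∧ m ≤ N ∧ SupportedIn F X ∧ SupportedIn F Y ∧
    X * Y = Matrix.fromBlocks E 0 0 1 ∧ Y * X = 1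

/-- **Transfer between characteristic zero and large characteristic.**

(A) For every group `G` the following are equivalent:

(1) `K_0(ℂ) → K_0(ℂ[G])` is surjective;

(2) `K_0(K) → K_0(K[G])` is surjective for all algebraically closed fields `K` of characteristic
zero;

(3) for every `n` and every finite subset `F` of `G` there are a finite subset `F'` of `G` and `N`
such that over every algebraically closed field of characteristic `0` or at least `N` each idempotent
`n × n` matrix supported in `F` has a certificate supported in `F'` with `k, m ≤ N`;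

(4) for every `n` and every finite subset `F` of `G` there is `N` such that for infinitely many
primes `p` each idempotent `n × n` matrix supported in `F` over the group algebra of `G` over the
algebraic closure of the field with `p` elements has a certificate of size `N`.

(B) The following are equivalent:

(1) `K_0(ℂ) → K_0(ℂ[G])` is surjective for all torsion-free groups `G`;

(2) for every `s` there is `N` such that for every algebraically closed field `K` of characteristic
`0` or at least `N`, every torsion-free group `G` and every `n ≤ s`, each idempotent `n × n` matrix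
over `K[G]` with at most `s` nonzero coefficients has a certificate of size `N`;

(3) for every `s` there is `N` such that for infinitely many primes `p` this holds for the algebraic
closure of the field with `p` elements.

(C) Let `P` be a set of characteristics which is finite or contains `0`. Then
`K_0(K) → K_0(K[G])` is surjective for all torsion-free groups `G` and all algebraically closed fields
`K` with characteristic in `P` if and only if for every `s` there is `N` such that for all these `K`
and `G` and every `n ≤ s`, each idempotent `n × n` matrix over `K[G]` with at most `s` nonzero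
coefficients has a certificate of size `N`. -/
theorem result :
    (∀ (G : Type) [Group G],
      [KZeroOnto ℂ G,
        ∀ (K : Type) [Field K] [IsAlgClosed K] [CharZero K], KZeroOnto K G,
        ∀ (n : ℕ) (F : Finset G), ∃ (F' : Finset G) (N : ℕ),
          ∀ (K : Type) [Field K] [IsAlgClosed K] (p : ℕ) [CharP K p], (p = 0 ∨ N ≤ p) →
          ∀ E : Matrix (Fin n) (Fin n) (MonoidAlgebra K G), SupportedIn F E → E * E = E →
            CertificateIn F' N E,
        ∀ (n : ℕ) (F : Finset G), ∃ N : ℕ, ∀ m : ℕ, ∃ (p : ℕ) (_ : Fact p.Prime), m < p ∧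
          ∀ E : Matrix (Fin n) (Fin n) (MonoidAlgebra (AlgebraicClosure (ZMod p)) G),
            SupportedIn F E → E * E = E → Certificate N E].TFAE) ∧
    [∀ (G : Type) [Group G], TorsionFree G → KZeroOnto ℂ G,
      ∀ s : ℕ, ∃ N : ℕ, ∀ (K : Type) [Field K] [IsAlgClosed K] (p : ℕ) [CharP K p],
        (p = 0 ∨ N ≤ p) → ∀ (G : Type) [Group G], TorsionFree G → ∀ n : ℕ, n ≤ s →
        ∀ E : Matrix (Fin n) (Fin n) (MonoidAlgebra K G), E * E = E → size E ≤ s →
          Certificate N E,
      ∀ s : ℕ, ∃ N : ℕ, ∀ m : ℕ, ∃ (p : ℕ) (_ : Fact p.Prime), m < p ∧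
        ∀ (G : Type) [Group G], TorsionFree G → ∀ n : ℕ, n ≤ s →
        ∀ E : Matrix (Fin n) (Fin n) (MonoidAlgebra (AlgebraicClosure (ZMod p)) G),
          E * E = E → size E ≤ s → Certificate N E].TFAE ∧
    ∀ P : Set ℕ, (P.Finite ∨ 0 ∈ P) →
      ((∀ (K : Type) [Field K] [IsAlgClosed K], (∃ p ∈ P, CharP K p) → ∀ (G : Type) [Group G],
          TorsionFree G → KZeroOnto K G) ↔
        ∀ s : ℕ, ∃ N : ℕ, ∀ (K : Type) [Field K] [IsAlgClosed K], (∃ p ∈ P, CharP K p) →
          ∀ (G : Type) [Group G], TorsionFree G → ∀ n : ℕ, n ≤ s →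
          ∀ E : Matrix (Fin n) (Fin n) (MonoidAlgebra K G), E * E = E → size E ≤ s →
            Certificate N E) := by
  classical
  open Pool.Agent.K4H37.TC in
  have key : ∀ (G : Type) [Group G], KZeroOnto ℂ G → ∀ (J : Type) (K : J → Type)
      [∀ i, Field (K i)] (U : Ultrafilter J), (∀ i, Good0 0 (K i)) →
      (∀ m, ∀ᶠ i in (U : Filter J), Good0 m (K i)) → Onto (Ult K U) G := by
    intro G _ h J K _ U h0 h1
    obtain ⟨_, _⟩ := good0_ult K U h0 h1
    exact complex_all h
  refine ⟨fun G _ => ?_, ?_, ?_⟩
  · tfae_have 1 → 2 := fun h K _ _ _ => Pool.Agent.K4H37.TC.complex_all h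
    tfae_have 2 → 1 := fun h => h ℂ
    tfae_have 1 → 3 := by
      intro h n F
      obtain ⟨F', N, h1⟩ := Pool.Agent.K4H37.TC.fixed Pool.Agent.K4H37.TC.Good0
        Pool.Agent.K4H37.TC.Good0.anti (key G h) n F
      exact ⟨F', N, fun K _ _ p _ hp E hF hE =>
        h1 K (Pool.Agent.K4H37.TC.good0_char p hp) E hF hE⟩
    tfae_have 3 → 4 := by
      intro h n F
      obtain ⟨F', N, h1⟩ := h n F
      refine ⟨N + (n + N) * N * F'.card, fun m => ?_⟩
      obtain ⟨p, hp1, hp2⟩ := Nat.exists_infinite_primes (N + m + 1)
      have hp : Fact p.Prime := ⟨hp2⟩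
      have hcp : CharP (AlgebraicClosure (ZMod p)) p :=
        charP_of_injective_algebraMap (algebraMap (ZMod p) _).injective p
      refine ⟨p, hp, by omega, fun E hF hE => ?_⟩
      have h2 : Pool.Agent.K4H37.TC.CertF F' N E := h1 _ p (Or.inr (by omega)) E hF hE
      exact h2.cert
    tfae_have 4 → 2 := fun h K _ _ _ => Pool.Agent.K4H37.TC.fpbar_all h
    tfae_finish
  · tfae_have 1 → 2 := by
      intro h s
      obtain ⟨N, h1⟩ := Pool.Agent.K4H37.TC.uniform Pool.Agent.K4H37.TC.Good0
        Pool.Agent.K4H37.TC.Good0.anti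
        (fun J K _ U h0 h1 G _ hG => key G (h G hG) J K U h0 h1) s
      exact ⟨N, fun K _ _ p _ hp G _ hG n hn E hE hs =>
        h1 K (Pool.Agent.K4H37.TC.good0_char p hp) G hG n hn E hE hs⟩
    tfae_have 2 → 3 := by
      intro h s
      obtain ⟨N, h1⟩ := h s
      refine ⟨N, fun m => ?_⟩
      obtain ⟨p, hp1, hp2⟩ := Nat.exists_infinite_primes (N + m + 1)
      have hp : Fact p.Prime := ⟨hp2⟩
      have hcp : CharP (AlgebraicClosure (ZMod p)) p :=
        charP_of_injective_algebraMap (algebraMap (ZMod p) _).injective p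
      exact ⟨p, hp, by omega, fun G _ hG n hn E hE hs =>
        h1 _ p (Or.inr (by omega)) G hG n hn E hE hs⟩
    tfae_have 3 → 1 := by
      intro h G _ hG
      apply Pool.Agent.K4H37.TC.fpbar_all
      intro n F
      obtain ⟨N, h1⟩ := h (n + n * n * F.card)
      refine ⟨N, fun m => ?_⟩
      obtain ⟨p, hp, hmp, h2⟩ := h1 m
      refine ⟨p, hp, hmp, fun E hF hE => h2 G hG n (Nat.le_add_right _ _) E hE ?_⟩
      refine le_trans ?_ (Nat.le_add_left _ _)
      calc size E ≤ ∑ _i : Fin n, ∑ _j : Fin n, F.card :=
            Finset.sum_le_sum fun i _ => Finset.sum_le_sum fun j _ => Finset.card_le_card (hF i j)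
        _ = n * n * F.card := by simp [mul_assoc]
    tfae_finish
  · intro P hP
    constructor
    · intro h s
      obtain ⟨N, h1⟩ := Pool.Agent.K4H37.TC.uniform (Pool.Agent.K4H37.TC.GoodP P)
        (fun _ _ _ _ _ h => h) (fun J K _ U h0 _ G _ hG => by
          obtain ⟨_, h2⟩ := Pool.Agent.K4H37.TC.goodP_ult P hP.symm K U h0
          exact h _ h2 G hG) s
      exact ⟨N, fun K _ hK hc G _ hG n hn E hE hs => h1 K ⟨hK, hc⟩ G hG n hn E hE hs⟩
    · intro h K _ _ hc G _ hG n E hE
      obtain ⟨N, h1⟩ := h (n + size E)
      exact (Pool.Agent.K4H37.TC.stFree_iff E).2 ⟨N, h1 K hc G hG n (Nat.le_add_right _ _) E hE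
        (Nat.le_add_left _ _)⟩

end Pool.Agent.Results.MP_1a2884_al.TransferCharacteristic
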