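import Pool.Agent.K4H37.KU.Main

/-!
# A compactness theorem for the projective class groups of group rings of torsion-free groups

There is one countable torsion-free group `U` such that for every ring `R` the surjectivity of
`K_0(R) → K_0(RG)` for all torsion-free groups `G` is equivalent to the surjectivity for `G = U`, to a
uniform version with bounds, and to a statement on finitely presented groups with torsion.
-/

set_option autoImplicit false

namespace Pool.Agent.Results.MP_1a2884_al.UniversalGroupAllRings

open Matrix

/-- `G` has no element of finite order except `1`. -/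
def TorsionFree (G : Type) [Group G] : Prop := ∀ g : G, ∀ k : ℕ, 0 < k → g ^ k = 1 → g = 1

/-- For an idempotent matrix `E` over `RG`: the class of the projective module `(RG)^n E` lies in the
image of `K_0(R)`. There are `k`, `m` and an idempotent `m × m` matrix `e` over `R` such that
`(RG)^n E ⊕ (RG)^k` and `(RG)^m e` are isomorphic, an isomorphism being given by matrices `X`, `Y`
with `X Y = E ⊕ 1` and `Y X = e`. -/
def StablyExtended {R G : Type} [Ring R] [Group G] {n : ℕ}
    (E : Matrix (Fin n) (Fin n) (MonoidAlgebra R G)) : Prop :=
  ∃ (k m : ℕ) (e : Matrix (Fin m) (Fin m) R)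
    (X : Matrix (Fin n ⊕ Fin k) (Fin m) (MonoidAlgebra R G))
    (Y : Matrix (Fin m) (Fin n ⊕ Fin k) (MonoidAlgebra R G)),
    e * e = e ∧ X * Y = Matrix.fromBlocks E 0 0 1 ∧ Y * X = e.map (MonoidAlgebra.single 1)

/-- The canonical map `K_0(R) → K_0(RG)` is surjective. -/
def KZeroOnto (R G : Type) [Ring R] [Group G] : Prop :=
  ∀ (n : ℕ) (E : Matrix (Fin n) (Fin n) (MonoidAlgebra R G)), E * E = E → StablyExtended E

/-- `X` is a sum of at most `N` matrices which have one nonzero entry `f g`, where `f ∈ F` and
`g ∈ G`. -/
def SumOfMonomials {R G κ ι : Type} [Ring R] [Group G] [DecidableEq κ] [DecidableEq ι] (N : ℕ)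
    (F : Finset R) (X : Matrix κ ι (MonoidAlgebra R G)) : Prop :=
  ∃ L : List (κ × ι × R × G), L.length ≤ N ∧ (∀ t ∈ L, t.2.2.1 ∈ F) ∧
    X = (L.map fun t => Matrix.single t.1 t.2.1 (MonoidAlgebra.single t.2.2.2 t.2.2.1 :
      MonoidAlgebra R G)).sum

/-- A certificate of size `N` with coefficients in `F` for `StablyExtended E`: the numbers `k` and `m`
are at most `N`, and `X` and `Y` are sums of at most `N` monomial matrices with coefficients in
`F`. -/
def Certificate {R G : Type} [Ring R] [Group G] {n : ℕ} (N : ℕ) (F : Finset R)
    (E : Matrix (Fin n) (Fin n) (MonoidAlgebra R G)) : Prop :=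
  ∃ (k m : ℕ) (e : Matrix (Fin m) (Fin m) R)
    (X : Matrix (Fin n ⊕ Fin k) (Fin m) (MonoidAlgebra R G))
    (Y : Matrix (Fin m) (Fin n ⊕ Fin k) (MonoidAlgebra R G)),
    k ≤ N ∧ m ≤ N ∧ SumOfMonomials N F X ∧ SumOfMonomials N F Y ∧
    e * e = e ∧ X * Y = Matrix.fromBlocks E 0 0 1 ∧ Y * X = e.map (MonoidAlgebra.single 1)

/-- The matrix over `RH` obtained from `E` over `RG` by a homomorphism `G → H`. -/
noncomputable def push {R G H : Type} [Ring R] [Group G] [Group H] (φ : G →* H) {n : ℕ}
    (E : Matrix (Fin n) (Fin n) (MonoidAlgebra R G)) :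
    Matrix (Fin n) (Fin n) (MonoidAlgebra R H) :=
  E.map (MonoidAlgebra.mapDomainRingHom R φ)

/-- Every member of the list has finite order modulo the normal closure of the later members: the
members of the list, starting with the last one, can be killed one after the other such that each
has finite order when it is killed. -/
inductive FiniteOrders {G : Type} [Group G] : List G → Prop
  | nil : FiniteOrders []
  | cons (g : G) (l : List G) (m : ℕ) : FiniteOrders l → 0 < m →
      g ^ m ∈ Subgroup.normalClosure {x | x ∈ l} → FiniteOrders (g :: l)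

/-- `E` becomes stably extended from `R` when finitely many elements of finite order are killed: there
is a list of elements of `G`, each of finite order modulo the normal closure of the later ones, such
that the image of `E` over the quotient of `G` by the normal closure of the list is stably
extended. -/
def ExtendedAfterKillingTorsion {R G : Type} [Ring R] [Group G] {n : ℕ}
    (E : Matrix (Fin n) (Fin n) (MonoidAlgebra R G)) : Prop :=
  ∃ l : List G, FiniteOrders l ∧
    StablyExtended (push (QuotientGroup.mk' (Subgroup.normalClosure {x | x ∈ l})) E)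

/-- `q : G → Q` is the largest torsion-free quotient of `G`: it is surjective, `Q` is torsion-free,
and all homomorphisms from `G` to torsion-free groups factor through it. -/
def IsLargestTorsionFreeQuotient {G Q : Type} [Group G] [Group Q] (q : G →* Q) : Prop :=
  Function.Surjective q ∧ TorsionFree Q ∧
    ∀ (Γ : Type) [Group Γ], TorsionFree Γ → ∀ φ : G →* Γ, q.ker ≤ φ.ker

/-- `U` is the restricted direct product of the largest torsion-free quotients of the groups
`⟨Fin r | S⟩`, for all finite sets `S` of words: there are the largest torsion-free quotients `q σ`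
of these groups, indexed by the pairs `σ = (r, S)`, and an isomorphism of `U` with the group of the
families of elements which are `1` for all but finitely many `σ`. -/
def IsUniversalProduct (U : Type) [Group U] : Prop :=
  ∃ (Q : (Σ r : ℕ, Finset (FreeGroup (Fin r))) → Type) (_ : ∀ σ, Group (Q σ))
    (q : ∀ σ : (Σ r : ℕ, Finset (FreeGroup (Fin r))),
      PresentedGroup (σ.2 : Set (FreeGroup (Fin σ.1))) →* Q σ) (i : U →* ∀ σ, Q σ),
    (∀ σ, IsLargestTorsionFreeQuotient (q σ)) ∧ Function.Injective i ∧
      Set.range i = {f | {σ | f σ ≠ 1}.Finite}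

section bridge

open Pool.Agent.K4H37.UG (Kills ncl torK TF tf_torsionFree kills_map liftTF liftTF_comp Univ
  univ_torsionFree univ_countable Fac ncl_le)
open Pool.Agent.K4H37.KU

variable {R G : Type} [Ring R] [Group G] {n : ℕ}

theorem st_bridge (E : Matrix (Fin n) (Fin n) (MonoidAlgebra R G)) :
    StablyExtended E ↔ StEx E := Iff.rfl

theorem cert_bridge (N : ℕ) (F : Finset R) (E : Matrix (Fin n) (Fin n) (MonoidAlgebra R G)) :
    Certificate N F E ↔ Cert N F E := Iff.rfl

theorem fo_bridge (l : List G) : FiniteOrders l ↔ Kills l := by
  constructor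
  · intro h
    induction h with
    | nil => exact Kills.nil
    | cons g l m _ hm hg ih => exact Kills.cons g l m ih hm hg
  · intro h
    induction h with
    | nil => exact FiniteOrders.nil
    | cons g l m _ hm hg ih => exact FiniteOrders.cons g l m ih hm hg

theorem killed_iff (E : Matrix (Fin n) (Fin n) (MonoidAlgebra R G)) :
    ExtendedAfterKillingTorsion E ↔ StEx (mm (QuotientGroup.mk' (torK G)) E) := by
  constructor
  · rintro ⟨l, hl, h⟩
    have hl' := (fo_bridge l).1 hl
    let ψ : G ⧸ ncl l →* TF G := QuotientGroup.map (ncl l) (torK G) (MonoidHom.id G) (by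
      intro x hx
      exact ncl_le hl' hx)
    have h1 : StEx (mm ψ (mm (QuotientGroup.mk' (ncl l)) E)) := StEx.map h ψ
    rw [mm_comp] at h1
    exact h1
  · intro h
    obtain ⟨l, hl, h1⟩ := kill_of_tf' E h
    exact ⟨l, (fo_bridge l).2 hl, h1⟩

theorem largest (G : Type) [Group G] :
    IsLargestTorsionFreeQuotient (QuotientGroup.mk' (torK G)) := by
  refine ⟨QuotientGroup.mk'_surjective _, tf_torsionFree, ?_⟩
  intro Γ _ hΓ φ x hx
  rw [QuotientGroup.ker_mk'] at hx
  obtain ⟨l, hl, hx⟩ := hx
  exact kills_map hΓ φ hl hx

/-- over a torsion-free target the killing of torsion has no effect -/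
theorem killed_push {Γ : Type} [Group Γ] (hΓ : TorsionFree Γ) (φ : G →* Γ)
    {E : Matrix (Fin n) (Fin n) (MonoidAlgebra R G)} (h : ExtendedAfterKillingTorsion E) :
    StEx (mm φ E) := by
  have h1 : StEx (mm (liftTF hΓ φ) (mm (QuotientGroup.mk' (torK G)) E)) :=
    ((killed_iff E).1 h).map (liftTF hΓ φ)
  rwa [mm_comp, liftTF_comp] at h1

end bridge

/-- There is a countable torsion-free group `U`, the restricted direct product of the largest
torsion-free quotients of the finitely presented groups, such that for every ring `R` the following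
are equivalent:

(1) `K_0(R) → K_0(RΓ)` is surjective for all torsion-free groups `Γ`;

(2) `K_0(R) → K_0(RU)` is surjective;

(3) for every `s` and every finite subset `F` of `R` there are `N` and a finite subset `F'` of `R`
such that for every torsion-free group `Γ` and every idempotent `n × n` matrix `E` over `RΓ` with
`n ≤ s` which is a sum of at most `s` monomial matrices with coefficients in `F`, there is a
certificate of size `N` with coefficients in `F'` for the stable extendedness of `E`;

(4) for every group `G`, every idempotent matrix over `RG` becomes stably extended from `R` when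
finitely many elements of finite order are killed;

(5) this holds for the finitely presented groups.

Moreover, for every ring `R`, every group `G` with largest torsion-free quotient `q : G → Q` and every
matrix `E` over `RG`: `E` becomes stably extended when finitely many elements of finite order are
killed if and only if its image over `RQ` is stably extended. -/
theorem result :
    (∃ (U : Type) (_ : Group U), Countable U ∧ TorsionFree U ∧ IsUniversalProduct U ∧
      ∀ (R : Type) [Ring R],
      [∀ (Γ : Type) [Group Γ], TorsionFree Γ → KZeroOnto R Γ,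
        KZeroOnto R U,
        ∀ (s : ℕ) (F : Finset R), ∃ (N : ℕ) (F' : Finset R), ∀ (Γ : Type) [Group Γ],
          TorsionFree Γ → ∀ n : ℕ, n ≤ s → ∀ E : Matrix (Fin n) (Fin n) (MonoidAlgebra R Γ),
            E * E = E → SumOfMonomials s F E → Certificate N F' E,
        ∀ (G : Type) [Group G] (n : ℕ) (E : Matrix (Fin n) (Fin n) (MonoidAlgebra R G)),
          E * E = E → ExtendedAfterKillingTorsion E,
        ∀ (r : ℕ) (S : Finset (FreeGroup (Fin r))) (n : ℕ)
          (E : Matrix (Fin n) (Fin n)
            (MonoidAlgebra R (PresentedGroup (S : Set (FreeGroup (Fin r)))))),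
          E * E = E → ExtendedAfterKillingTorsion E].TFAE) ∧
    ∀ (R G Q : Type) [Ring R] [Group G] [Group Q] (q : G →* Q), IsLargestTorsionFreeQuotient q →
      ∀ (n : ℕ) (E : Matrix (Fin n) (Fin n) (MonoidAlgebra R G)),
        ExtendedAfterKillingTorsion E ↔ StablyExtended (push q E) := by
  open Pool.Agent.K4H37.UG in
  open Pool.Agent.K4H37.KU in
  refine ⟨⟨Univ, inferInstance, univ_countable, univ_torsionFree, ?_, ?_⟩, ?_⟩
  · refine ⟨Fac, inferInstance, fun σ => QuotientGroup.mk' _, Univ.subtype,
      fun σ => largest _, Univ.subtype_injective, ?_⟩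
    rw [← MonoidHom.coe_range, Subgroup.range_subtype]
    rfl
  · intro R _
    tfae_have 1 → 2 := fun h => h Univ univ_torsionFree
    tfae_have 2 → 1 := fun h Γ _ hΓ => Pool.Agent.K4H37.KU.main_univ h hΓ
    tfae_have 1 → 3 := fun h s F => Pool.Agent.K4H37.KU.main_bound h s F
    tfae_have 3 → 1 := by
      intro h Γ _ hΓ n E hE
      obtain ⟨s, F, hs⟩ := exists_sumOf E
      obtain ⟨N, F', hN⟩ := h (n + s) F
      exact (stEx_iff E).2 ⟨N, F', hN Γ hΓ n (by omega) E hE
        (SumOf.mono hs (by omega) (Finset.Subset.refl F))⟩
    tfae_have 1 → 4 := by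
      intro h G _ n E hE
      refine (killed_iff E).2 (h _ tf_torsionFree n _ ?_)
      rw [← mm_mul, hE]
    tfae_have 4 → 5 := fun h r S n E hE => h _ n E hE
    tfae_have 5 → 1 := by
      intro h Γ _ hΓ n E hE
      obtain ⟨s, F, hs⟩ := exists_sumOf E
      obtain ⟨d, φ, hd, rfl⟩ := Pool.Agent.K4H37.KU.exists_data E hE hs
      exact killed_push hΓ φ (h _ _ n _ hd)
    tfae_finish
  · intro R G Q _ _ _ q hq n E
    open Pool.Agent.K4H37.UG in
    open Pool.Agent.K4H37.KU in
    constructor
    · intro h
      exact killed_push hq.2.1 q h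
    · intro h
      obtain ⟨hs, htf, huniv⟩ := hq
      refine (killed_iff E).2 ?_
      have hk : q.ker ≤ (QuotientGroup.mk' (torK G)).ker :=
        huniv (TF G) tf_torsionFree (QuotientGroup.mk' (torK G))
      let ψ : Q →* TF G := (QuotientGroup.lift q.ker (QuotientGroup.mk' (torK G)) hk).comp
        (QuotientGroup.quotientKerEquivOfSurjective q hs).symm.toMonoidHom
      have h3 : StEx (mm ψ (mm q E)) := StEx.map h ψ
      rw [mm_comp] at h3
      have h4 : ψ.comp q = QuotientGroup.mk' (torK G) := by
        ext x
        have h5 : (QuotientGroup.quotientKerEquivOfSurjective q hs).symm (q x) =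
            QuotientGroup.mk' q.ker x := by
          rw [MulEquiv.symm_apply_eq]
          rfl
        change QuotientGroup.lift q.ker (QuotientGroup.mk' (torK G)) hk
          ((QuotientGroup.quotientKerEquivOfSurjective q hs).symm (q x)) = _
        rw [h5]
        rfl
      rw [h4] at h3
      exact h3

end Pool.Agent.Results.MP_1a2884_al.UniversalGroupAllRings
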